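import Pool.Agent.H22.IA.Rad

/-!
# MP_d83ecd_ag: Zilber-Pink for almost all integral affine images `b + a V` of the subvarieties `V`
of `(P¹)^n` of any dimension in general position at infinity

`Y(1)^n` is identified with `ℂ^n` by the elliptic modular function `jj = j = E₄³ / Δ`.

Let `V ⊆ (P¹)^n` be a subvariety of any dimension and any degree given by multihomogeneous forms
over `ℤ`, in general position at infinity: for every `k` the locus of `V` where `k` given
coordinates are `∞` has dimension at most `m - k` (`GeneralPositionAtInfinity F m`, where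
the dimension is expressed with the transcendence degrees of the complex points of `V`).

For `a ∈ ℤ` and `b ∈ ℤ^n` let `b + a V` be the set of all `(b_1 + a y_1, …, b_n + a y_n)`,
`y ∈ V ∩ ℂ^n` (`image F a b`).

**Theorem.** For every `ε > 0` there is a constant `C` such that for all squarefree `d ≥ 1`, all
integers `a ≠ 0` divisible by `d`, and all `N`, the set `b + a V` has no atypical intersection at all
with special subvarieties, for all but at most `C d ^ (-1/2 + ε) (N + d²) ^ n` of the `b ∈ ℤ^n` with
`|b_i| ≤ N`: for each special subvariety `Z` of dimension `r` the points of `(b + a V) ∩ Z` have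
transcendence degree at most `m + r - n` (`NoAtypical (image F a b) m`). In particular `b + a V` does
not meet the special subvarieties of dimension less than `n - m`.

So, for every fixed `a ≠ 0`, the exceptional `b ∈ ℤ^n` have upper density at most
`C' rad(a) ^ (-1/2 + ε)`, which tends to `0` for `rad(a) → ∞`.

The proof is in `Pool.Agent.H22.IA`. Let `p` divide `a`, and fix a place above `p`. By the
congruence of Kronecker and the surjectivity of `j`, every integer `b_i` is congruent to a singular
modulus `s_i` fixed by an integral matrix of determinant `p`. If `s_i` is ordinary, the canonical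
isogeny shows that `b_i - s_i` is divisible by `p` (not only by the maximal ideal). So all the
integral points of `b + a V` are in the small polydisk around the CM point `s`, where special
subvarieties are under control (the local theorem of `Pool.Graph…N135.ZO`), if the `s_i` are
pairwise not isogenous. A polynomial `R(V)` controls the intersections of the reductions of `V`
with the hyperplanes `y_i = ∞` and `y_i = (s_i - b_i) / a`. The exceptional residue classes of `b`
modulo `p²` are counted: there are `O(p^(1/2 + ε))` singular moduli with a given trace (reduction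
theory), at most `81` traces belong to a given quadratic field, and `R(V)` has few zeros. The
conditions for the prime factors `p` of `d` are independent.
-/

set_option autoImplicit false

namespace Pool.Agent.Results.MP_d83ecd_ag.IntegralAffineImages

open UpperHalfPlane H294ZP

/-- A special subvariety of dimension `r` of `Y(1)^n`: a map `cls` from the coordinates onto `r`
classes (`none` for the constant coordinates), an integral matrix of positive determinant for each
coordinate, and a CM point for each coordinate. -/
structure SpecialVariety (n r : ℕ) where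
  cls : Fin n → Option (Fin r)
  surj : ∀ l : Fin r, ∃ i, cls i = some l
  mat : Fin n → Matrix (Fin 2) (Fin 2) ℤ
  det_pos : ∀ i, 0 < (mat i).det
  cm : Fin n → ℍ
  isCM : ∀ i, IsCM (cm i)

/-- The points of a special subvariety: the constant coordinates are the singular moduli
`j (cm i)`, the other coordinates are `j (g_i z_l)`, where `l` is the class of `i`, `g_i = mat i` and
`z_1, …, z_r` are free parameters in the upper half plane. -/
def SpecialVariety.locus {n r : ℕ} (Z : SpecialVariety n r) : Set (Fin n → ℂ) :=
  {x | ∃ z : Fin r → ℍ, ∀ i, (Z.cls i = none → x i = jj (Z.cm i)) ∧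
    ∀ l, Z.cls i = some l → ∃ w : ℍ,
      (w : ℂ) * (Z.mat i 1 0 * z l + Z.mat i 1 1) = Z.mat i 0 0 * z l + Z.mat i 0 1 ∧ x i = jj w}

/-- A form with integral coefficients which is homogeneous of degree `deg i` in `(ξ i, ζ i)` for
each `i`: the coefficients of the monomials `∏ ξ_i ^ (e_i) ζ_i ^ (deg i - e_i)`. -/
structure MultiForm (n : ℕ) where
  deg : Fin n → ℕ
  coeff : ((i : Fin n) → Fin (deg i + 1)) → ℤ

/-- The value of the form. -/
def MultiForm.eval {n : ℕ} (F : MultiForm n) (ξ ζ : Fin n → ℂ) : ℂ :=
  ∑ e, (F.coeff e : ℂ) * ∏ i, ξ i ^ (e i : ℕ) * ζ i ^ (F.deg i - e i)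

/-- The subvariety `V` of `(P¹)^n` given by the forms is in general position at infinity: for each
complex point `(ξ_i : ζ_i)_i` of `V`, the number of coordinates equal to `∞` plus the number of any
family of algebraically independent coordinates is at most `m`. (So `V` has dimension at most `m`,
and its intersection with `k` of the hyperplanes `∞` has dimension at most `m - k`.) -/
def GeneralPositionAtInfinity {n : ℕ} {T : Type} (F : T → MultiForm n) (m : ℕ) : Prop :=
  ∀ ξ ζ : Fin n → ℂ, (∀ i, ξ i ≠ 0 ∨ ζ i ≠ 0) → (∀ t, (F t).eval ξ ζ = 0) →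
    ∀ W : Finset (Fin n), AlgebraicIndependent ℚ (fun i : W => ξ i / ζ i) →
      {i | ζ i = 0}.ncard + W.card ≤ m

/-- `b + a V`: the set of all `(b_i + a y_i)_i`, where `y` is a point of `ℂ^n` at which all the
forms vanish. -/
def image {n : ℕ} {T : Type} (F : T → MultiForm n) (a : ℤ) (b : Fin n → ℤ) : Set (Fin n → ℂ) :=
  {x | ∃ y : Fin n → ℂ, (∀ t, (F t).eval y (fun _ => 1) = 0) ∧ ∀ i, x i = b i + a * y i}

/-- For each special subvariety `Z` of dimension `r`, the points of `X ∩ Z` have transcendence
degree at most `m + r - n`: families of algebraically independent coordinates have at most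
`m + r - n` elements. -/
def NoAtypical {n : ℕ} (X : Set (Fin n → ℂ)) (m : ℕ) : Prop :=
  ∀ (r : ℕ) (Z : SpecialVariety n r), ∀ x ∈ X ∩ Z.locus, ∀ W : Finset (Fin n),
    AlgebraicIndependent ℚ (fun i : W => x i) → n + W.card ≤ m + r

theorem result {n : ℕ} {T : Type} (F : T → MultiForm n) (m : ℕ)
    (hF : GeneralPositionAtInfinity F m) (ε : ℝ) (hε : 0 < ε) :
    ∃ C : ℝ, ∀ d : ℕ, Squarefree d → ∀ a : ℤ, a ≠ 0 → (d : ℤ) ∣ a → ∀ N : ℕ,
      ({b : Fin n → ℤ | (∀ i, |b i| ≤ N) ∧ ¬ NoAtypical (image F a b) m}.ncard : ℝ) ≤
        C * (d : ℝ) ^ (-1 / 2 + ε) * (N + (d : ℝ) ^ 2) ^ n := by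
  set G : T → Pool.Agent.N135.ZO.MForm ℤ n := fun t => ⟨(F t).deg, (F t).coeff⟩ with hG
  have hev : ∀ t (ξ ζ : Fin n → ℂ), (G t).eval (Int.castRingHom ℂ) ξ ζ = (F t).eval ξ ζ :=
    fun _ _ _ => rfl
  have hG' : Pool.Agent.H22.IA.GenInf G m := fun ξ ζ h1 h2 => hF ξ ζ h1 h2
  have hgood : ∀ (a : ℤ) (b : Fin n → ℤ), Pool.Agent.H22.IA.Good G m a b →
      NoAtypical (image F a b) m := by
    rintro a b hab r Z x ⟨⟨y, hy, hxy⟩, hxZ⟩ W hW
    exact hab r ⟨Z.cls, Z.surj, Z.mat, Z.det_pos, Z.cm, Z.isCM⟩ x hxZ y hy hxy W hW
  obtain ⟨C, -, hC⟩ := Pool.Agent.H22.IA.count3 hG' hε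
  refine ⟨C, fun d hd a ha hda N => le_trans ?_ (hC d hd a ha hda N)⟩
  refine Nat.cast_le.2 (Set.ncard_le_ncard (fun b hb => ⟨hb.1, fun h => hb.2 (hgood a b h)⟩) ?_)
  refine Set.Finite.subset (Set.finite_Icc (fun _ : Fin n => -(N : ℤ)) (fun _ => (N : ℤ))) ?_
  intro b hb
  exact ⟨fun i => (abs_le.1 (hb.1 i)).1, fun i => (abs_le.1 (hb.1 i)).2⟩

end Pool.Agent.Results.MP_d83ecd_ag.IntegralAffineImages
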