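import Pool.Agent.H22.LP.Inf

/-!
# MP_d83ecd_ag: Zilber-Pink for ALL subvarieties of `Y(1)^n` and the atypical intersections which come
`p`-adically close to a point whose coordinates are ordinary CM points or the cusp

The Shimura variety `Y(1)^n` is identified with `ℂ^n` by the elliptic modular function
`jj = j = E₄³ / Δ`. The definitions `Subvariety`, `Special`, `IsComp`, `vdim`, `Atypical` are those of the
starting file `N101/ZP/YDef`, and `OrdAt`, `Isog` those of `N135/ZO`.

A place `𝔓` of `ℂ` above a prime number `p` is a valuation ring of `ℂ` in which `p` is not a unit,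
with absolute value `| |`; there are infinitely many places above every `p`. We say that `z` is off
the circles (`OffCircles 𝔓 p m z`) if `|z|` is none of the numbers `|p| ^ (1 / ((p - 1) p^k))`, `k ≥ m`.
It is satisfied if `|z| ≤ |p| ^ (1 / e)` for an `e` with `e < (p - 1) p^m`. Two numbers with `|z| > 1`,
`|w| > 1` are called commensurable, if `|z|^a = |w|^b` for some positive integers `a`, `b`.

**The neighbourhood.** Let `s = (s_1, ..., s_n)` be a CM point of `Y(1)^n` and let `m(p) ≥ 0` be
integers for all prime numbers `p`, almost all zero. `nbhd` is the set of all `x` in `ℂ^n` for which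
there are some odd prime number `p` and some place `𝔓` above `p` with the following properties. For
every `i` either `|x_i| > 1` (`x_i` is close to the cusp), or
(a) `|x_i - s_i| < 1`, `s_i` is ordinary at `p`, `|s_i| = |s_i - 1728| = 1`, and `x_i - s_i` is off the circles
with `k ≥ m(p)`. Moreover,
(b) two different coordinates close to the cusp are not commensurable, and `s_i` and `s_j` are not
isogenous if `i ≠ j` and `x_i`, `x_j` are not close to the cusp.
One exception is allowed: for one `i` only `|x_i - s_i| < 1` is supposed in (a), or (b) is not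
supposed for one pair.

**Theorem.** There are finitely many special subvarieties `Z_1, ..., Z_N` of `Y(1)^n`, which depend
only on `s` and the `m(p)`, such that for EVERY subvariety `V` of `Y(1)^n` (over the complex numbers,
of any dimension and degree, without any condition):
1. every maximal atypical subvariety of `V` which meets the neighbourhood is an irreducible
   component of the intersection of `V` with some `Z_j`;
2. `V` has only finitely many such maximal atypical subvarieties;
3. there is a finite union of proper special subvarieties which contains every atypical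
   intersection of `V` with any special subvariety which meets the neighbourhood. (This is the
   conclusion of the conjecture of Zilber and Pink, for the `W_n` which meet the neighbourhood.)

The neighbourhood contains the points near to `s` (and near to the points which are obtained from
`s` by replacing some coordinates by the cusp) at all places `𝔓` above all odd prime numbers at
which the `s_i` are ordinary, if no `s_i` is congruent to `0` or `1728` modulo `𝔓`.

Proof. By the theory of the canonical isogeny, the distance of two CM points in an ordinary residue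
disk is one of the numbers `|p| ^ (1 / ((p - 1) p^k))`, and their images under the `(k + 1)`-st iterate
of the canonical isogeny are then equal, so that the CM points in the residue disk of `s_i` which
are off the circles with `k ≥ m(p)` are in a finite set which does not depend on `𝔓`, and which is
`{s_i}` if `m(p) = 0`. A point in the `i`-th and a point in the `j`-th residue disk are never isogenous
if `s_i` and `s_j` are not isogenous. Numbers with `|z| > 1` are not singular moduli, are not
isogenous to numbers with `|z| ≤ 1`, and isogenous ones are commensurable. If a special subvariety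
`Z` meets the neighbourhood, it follows that `Z` is contained, and has codimension at most one, in
a coordinate subspace `Z'` whose constants are in this finite set. If `A` is a component of `Z ∩ V`
and is atypical and maximal, then a component of `Z' ∩ V` which contains `A` is equal to `A`, since
its dimension would otherwise be larger than the dimension of `A`, so that it would be atypical.
-/

set_option autoImplicit false

namespace Pool.Agent.Results.MP_d83ecd_ag.NearOrdinaryPoints

open Pool.Agent.N101.Y1 H294ZP UpperHalfPlane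
open Pool.Agent.N135.ZO (OrdAt Isog)

/-- `A` is an atypical subvariety of `V`: an irreducible component of the intersection of `V` with
some special subvariety `Z`, with `dim A > dim V + dim Z - n`. -/
def AtypicalSub {n : ℕ} (A V : Set (Fin n → ℂ)) : Prop := ∃ Z, Special Z ∧ Atypical A Z V

/-- `A` is a maximal atypical subvariety of `V`: it is not properly contained in another one. -/
def MaxAtypicalSub {n : ℕ} (A V : Set (Fin n → ℂ)) : Prop :=
  AtypicalSub A V ∧ ∀ A', AtypicalSub A' V → A ⊆ A' → A' = A

/-- `|z| ^ ((p - 1) p^k) ≠ |p|` for all `k ≥ m`. -/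
def OffCircles (𝔓 : ValuationSubring ℂ) (p m : ℕ) (z : ℂ) : Prop :=
  ∀ k : ℕ, m ≤ k → 𝔓.valuation z ^ ((p - 1) * p ^ k) ≠ 𝔓.valuation (p : ℂ)

/-- `|z| ^ a = |w| ^ b` for some positive integers `a`, `b`. -/
def Commensurable (𝔓 : ValuationSubring ℂ) (z w : ℂ) : Prop :=
  ∃ a b : ℕ, 0 < a ∧ 0 < b ∧ 𝔓.valuation z ^ a = 𝔓.valuation w ^ b

/-- The points `x` which are close, at some place `𝔓` above some odd prime number `p`, to the point
with the coordinates `∞` for `i` in a set `J` and `s_i = jj (τ i)` for the other `i`: `|x_i| > 1` for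
`i` in `J`, and for the other `i` we have `|x_i - s_i| < 1` and, except for `i = i₀ = j₀`, `s_i` is
ordinary at `p`, `|s_i| = |s_i - 1728| = 1`, and `x_i - s_i` is off the circles with `k ≥ m p`. Moreover
`x_i`, `x_j` are not commensurable for `i ≠ j` in `J`, and `s_i`, `s_j` are not isogenous for `i ≠ j`
not in `J`, except possibly for the pair `i₀`, `j₀`. -/
def nbhd {n : ℕ} (τ : Fin n → ℍ) (m : ℕ → ℕ) : Set (Fin n → ℂ) :=
  {x | ∃ (p : ℕ) (𝔓 : ValuationSubring ℂ) (i₀ j₀ : Fin n) (J : Finset (Fin n)), p.Prime ∧ p ≠ 2 ∧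
    𝔓.valuation (p : ℂ) < 1 ∧
    (∀ i j, i ≠ j → (i ∈ J ∧ j ∈ J ∧ Commensurable 𝔓 (x i) (x j)) ∨
      (i ∉ J ∧ j ∉ J ∧ Isog (jj (τ i)) (jj (τ j))) → (i = i₀ ∧ j = j₀) ∨ (i = j₀ ∧ j = i₀)) ∧
    (∀ i ∈ J, 1 < 𝔓.valuation (x i)) ∧
    ∀ i ∉ J, 𝔓.valuation (x i - jj (τ i)) < 1 ∧ (¬ (i = i₀ ∧ i = j₀) → OrdAt p (τ i) ∧
      𝔓.valuation (jj (τ i)) = 1 ∧ 𝔓.valuation (jj (τ i) - 1728) = 1 ∧
      OffCircles 𝔓 p (m p) (x i - jj (τ i)))}

/-- **Uniform Zilber-Pink near a point with ordinary CM or cusp coordinates.** -/
theorem result (n : ℕ) (τ : Fin n → ℍ) (hcm : ∀ i, IsCM (τ i)) (m : ℕ →₀ ℕ) :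
    ∃ F : Set (Set (Fin n → ℂ)), F.Finite ∧ (∀ Z ∈ F, Special Z) ∧
      ∀ V : Set (Fin n → ℂ), Subvariety V →
        (∀ A, MaxAtypicalSub A V → (A ∩ nbhd τ m).Nonempty → ∃ Z ∈ F, IsComp A (Z ∩ V)) ∧
        {A | MaxAtypicalSub A V ∧ (A ∩ nbhd τ m).Nonempty}.Finite ∧
        ∃ T : Set (Set (Fin n → ℂ)), T.Finite ∧ (∀ S ∈ T, Special S ∧ S ≠ Set.univ) ∧
          ∀ Z W : Set (Fin n → ℂ), Special Z → Atypical W Z V → (W ∩ nbhd τ m).Nonempty →
            ∃ S ∈ T, W ⊆ S := by
  classical
  set T : Set ℂ := ⋃ i, ({jj (τ i)} ∪ ⋃ p ∈ m.support.filter Nat.Prime,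
    Pool.Agent.H22.LP.LevT p (m p) (jj (τ i))) with hT
  have hTfin : T.Finite := by
    refine Set.finite_iUnion fun i => (Set.finite_singleton _).union
      ((Finset.finite_toSet _).biUnion fun p hp => ?_)
    rw [Finset.mem_coe, Finset.mem_filter] at hp
    exact Pool.Agent.H22.LP.levT_finite hp.2 _ _
  have hreg : nbhd τ m ⊆ Pool.Agent.H22.LP.Reg n T := by
    rintro x ⟨p, 𝔓, i₀, j₀, J, hp, hp2, h𝔓, hiso, hxJ, hx⟩
    refine Pool.Agent.H22.LP.local_inf hp hp2 h𝔓 τ i₀ j₀ J hcm
      (fun i hiJ hi => ⟨((hx i hiJ).2 hi).1, ((hx i hiJ).2 hi).2.1, ((hx i hiJ).2 hi).2.2.1⟩)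
      hiso (m p) ?_ hxJ fun i hiJ => ⟨(hx i hiJ).1, fun hi => ((hx i hiJ).2 hi).2.2.2⟩
    intro i z hz
    refine Set.mem_iUnion.2 ⟨i, ?_⟩
    by_cases hm : m p = 0
    · left
      rw [hm] at hz
      simpa [Pool.Agent.H22.LP.LevT] using hz
    · right
      exact Set.mem_iUnion₂.2 ⟨p, Finset.mem_filter.2 ⟨Finsupp.mem_support_iff.2 hm, hp⟩, hz⟩
  refine ⟨Pool.Agent.H22.LP.Fam n T, Pool.Agent.H22.LP.fam_finite n hTfin, fun Z hZ => hZ.1,
    fun V hV => ?_⟩
  have h1 : ∀ A, MaxAtypicalSub A V → (A ∩ nbhd τ m).Nonempty →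
      ∃ Z ∈ Pool.Agent.H22.LP.Fam n T, IsComp A (Z ∩ V) := by
    rintro A ⟨hA, hmax⟩ ⟨x, hxA, hx⟩
    exact Pool.Agent.H22.LP.reg_comp hV hA hmax ⟨x, hxA, hreg hx⟩
  have h2 : {A | MaxAtypicalSub A V ∧ (A ∩ nbhd τ m).Nonempty}.Finite := by
    refine (Pool.Agent.H22.LP.comp_finite (Pool.Agent.H22.LP.fam_finite n hTfin)
      (fun Z hZ => hZ.1) hV).subset ?_
    rintro A ⟨hA, hR⟩
    exact h1 A hA hR
  obtain ⟨T', hT1, hT2, hT3⟩ := Pool.Agent.H22.LP.exists_cover (R := nbhd τ m) hV h2
  exact ⟨h1, h2, T', hT1, hT2, fun Z W hZ hW hR => hT3 W ⟨Z, hZ, hW⟩ hR⟩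

end Pool.Agent.Results.MP_d83ecd_ag.NearOrdinaryPoints
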